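import Pool.Agent.H92.KST.Targets

/-!
# Project KEW, block (e), row COP (helper74): the coprime case
-/

set_option autoImplicit false
set_option linter.dupNamespace false
set_option linter.unusedSectionVars false

universe u

namespace Pool.Agent.H74.KST

open Pool.Agent.H92.KST

/-! ## Small lemmas -/

section small

variable {R F M : Type u} [CommRing R] [IsDomain R] [Field F] [Algebra R F]
  [IsFractionRing R F] [AddCommGroup M]

theorem ne_map {x : R} (hx : x ≠ 0) : algebraMap R F x ≠ 0 := fun h =>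
  hx ((IsFractionRing.injective R F) (by rw [h, map_zero]))

theorem U_mem (S : Sit R) (σ : Symb F M) (T : Set (Ideal R)) {a g : F} (ha : InL T a)
    (hg : g ≠ 0) (h : 1 + algebraMap R F S.p ^ (S.n + 1) * a ≠ 0) :
    σ.s (1 + algebraMap R F S.p ^ (S.n + 1) * a) g ∈ U S σ T :=
  AddSubgroup.subset_closure ⟨a, g, ha, hg, h, rfl⟩

theorem lift_of_U (S : Sit R) (σ : Symb F M) (y : S.Y) {c : M} (h : c ∈ U S σ (S.T y)) :
    Lift S σ y c :=
  ⟨0, zero_mem _, by rw [zero_sub]; exact neg_mem h, fun _ _ => zero_mem _⟩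

theorem lift_add (S : Sit R) (σ : Symb F M) (y : S.Y) {c d : M} (hc : Lift S σ y c)
    (hd : Lift S σ y d) : Lift S σ y (c + d) := by
  obtain ⟨a, h1, h2, h3⟩ := hc
  obtain ⟨b, h1', h2', h3'⟩ := hd
  refine ⟨a + b, add_mem h1 h1', ?_, fun y' hy' => add_mem (h3 y' hy') (h3' y' hy')⟩
  have h4 : a + b - (c + d) = (a - c) + (b - d) := by abel
  rw [h4]
  exact add_mem h2 h2'

theorem lift_neg (S : Sit R) (σ : Symb F M) (y : S.Y) {c : M} (hc : Lift S σ y c) :
    Lift S σ y (-c) := by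
  obtain ⟨a, h1, h2, h3⟩ := hc
  refine ⟨-a, neg_mem h1, ?_, fun y' hy' => neg_mem (h3 y' hy')⟩
  have h4 : -a - -c = -(a - c) := by abel
  rw [h4]
  exact neg_mem h2

/-- gluing of local lifts -/
theorem lift_glue (S : Sit R) (σ : Symb F M) (y₀ : S.Y) (c : M) (hc : c ∈ U S σ S.Sig)
    (E : Finset S.Y) (h1 : ∀ y, y ≠ y₀ → y ∉ E → c ∈ U S σ (S.T y)) (h0 : y₀ ∉ E)
    (h2 : ∀ y ∈ E, Lift S σ y c) : Lift S σ y₀ c := by
  classical
  choose! a ha hb hd using h2
  refine ⟨c - ∑ y ∈ E, a y, sub_mem hc (sum_mem ha), ?_, ?_⟩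
  · have h3 : c - ∑ y ∈ E, a y - c = -∑ y ∈ E, a y := by abel
    rw [h3]
    refine neg_mem (sum_mem fun y hy => hd y hy y₀ ?_)
    rintro rfl
    exact h0 hy
  · intro y' hy'
    by_cases hE : y' ∈ E
    · rw [← Finset.add_sum_erase E a hE, ← sub_sub]
      refine sub_mem ?_ (sum_mem fun y hy => ?_)
      · rw [← neg_sub]
        exact neg_mem (hb y' hE)
      · exact hd y (Finset.mem_of_mem_erase hy) y' (Finset.ne_of_mem_erase hy).symm
    · refine sub_mem (h1 y' hy' hE) (sum_mem fun y hy => hd y hy y' ?_)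
      rintro rfl
      exact hE hy

omit [IsDomain R] [IsFractionRing R F] in
theorem InJ_mono {T : Set (Ideal R)} {k l : ℕ} (hkl : k ≤ l) {d : F} (h : InJ T l d) :
    InJ T k d := by
  obtain ⟨s, r, h1, h2, h3, h4⟩ := h
  exact ⟨s, r, h1, h2, Ideal.pow_le_pow_right hkl h3, h4⟩

end small

/-! ## Primes -/

section primes

variable {R : Type u} [CommRing R] [IsDomain R] [IsNoetherianRing R]

theorem sig_nonempty (S : Sit R) (y : S.Y) : S.Sig.Nonempty := by
  obtain ⟨q, hq⟩ := S.ne y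
  have hqp := S.pr y q hq
  obtain ⟨e, he, heq⟩ := Ideal.exists_minimalPrimes_le (I := Ideal.span {S.p}) (J := q)
    ((Ideal.span_singleton_le_iff_mem q).2 (S.mem y q hq))
  have hep : e.IsPrime := he.1.1
  have hpe : S.p ∈ e := he.1.2 (Ideal.mem_span_singleton_self _)
  refine ⟨e, hep, le_antisymm
    (Ideal.height_le_one_of_isPrincipal_of_mem_minimalPrimes _ e he) ?_, hpe⟩
  rw [Order.one_le_iff_pos, pos_iff_ne_zero]
  intro h0
  rw [Ideal.height_eq_zero_iff_eq_bot] at h0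
  rw [h0, Ideal.mem_bot] at hpe
  exact S.p0 hpe

/-- near a point the only prime which contains `p` and an element outside the vertical primes
is one of the primes of the point -/
theorem prime_eq (S : Sit R) (y : S.Y) (B : R) (hB : ∀ e ∈ S.Sig, B ∉ e) (P : Ideal R)
    (hP : P.IsPrime) (hp : S.p ∈ P) (hBP : B ∈ P) (q : Ideal R) (hq : q ∈ S.T y)
    (hPq : P ≤ q) : P = q := by
  have hqp := S.pr y q hq
  by_contra hne
  have hlt : P < q := lt_of_le_of_ne hPq hne
  have h1 := Ideal.height_add_one_le_of_lt_of_isPrime hlt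
  rw [S.ht y q hq] at h1
  have h2 : P.height ≤ 1 := by
    have h3 : P.height + 1 ≤ 1 + 1 := by
      rw [one_add_one_eq_two]
      exact h1
    exact (ENat.add_le_add_iff_right ENat.one_ne_top).1 h3
  refine hB P ⟨hP, le_antisymm h2 ?_, hp⟩ hBP
  rw [Order.one_le_iff_pos, pos_iff_ne_zero]
  intro h0
  rw [Ideal.height_eq_zero_iff_eq_bot] at h0
  rw [h0, Ideal.mem_bot] at hp
  exact S.p0 hp

end primes

/-! ## The local statement -/

section main

variable {R F M : Type u} [CommRing R] [IsDomain R] [IsNoetherianRing R] [IsIntegrallyClosed R]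
  [Field F] [Algebra R F] [IsFractionRing R F] [AddCommGroup M]

theorem InL_div {T : Set (Ideal R)} {r s : R} (hs0 : s ≠ 0) (hs : ∀ q ∈ T, s ∉ q) :
    InL T (algebraMap R F r / algebraMap R F s) :=
  ⟨s, r, hs0, hs, mul_div_cancel₀ _ (ne_map hs0)⟩

theorem cop_loc (hRAD : T_RAD.{u}) (hLE2 : T_LE2.{u}) (S : Sit R) (σ : Symb F M) (y : S.Y)
    (B g : R) (hB0 : B ≠ 0) (hB : ∀ e ∈ S.Sig, B ∉ e) (hg : g ≠ 0)
    (hcop : ∀ P ∈ S.Hor, Below (S.T y) P → B ∈ P → g ∉ P) :
    ∃ k : ℕ, ∀ (a : R) (t : F), InJ (S.T y) k t →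
      1 + algebraMap R F S.p ^ (S.n + 1) * (algebraMap R F a * t / algebraMap R F B) ≠ 0 →
      Lift S σ y (σ.s (1 + algebraMap R F S.p ^ (S.n + 1) *
        (algebraMap R F a * t / algebraMap R F B)) (algebraMap R F g)) := by
  obtain ⟨N, hN⟩ := hLE2 R F M S σ y B g hB0 (fun e he _ => hB e he) hg hcop
  obtain ⟨k, s, hs0, hs, hsk⟩ := hRAD R (S.T y) (S.fin y) (S.ne y) (S.pr y)
    (Ideal.span {B, S.p ^ N}) (sInf (S.T y)) (by
      rintro P hP ⟨q, hq, hPq⟩
      have hPp : P.IsPrime := hP.1.1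
      have hBP : B ∈ P := hP.1.2 (Ideal.subset_span (by simp))
      have hpP : S.p ∈ P := hPp.mem_of_pow_mem N (hP.1.2 (Ideal.subset_span (by simp)))
      rw [prime_eq S y B hB P hPp hpP hBP q hq hPq]
      exact sInf_le hq)
  refine ⟨k, ?_⟩
  rintro a t ⟨s', r', hs0', hs', hr', hst⟩ hne
  have h1 := hsk r' hr'
  rw [Ideal.mem_span_pair] at h1
  obtain ⟨x1, x2, hx⟩ := h1
  have hBF : algebraMap R F B ≠ 0 := ne_map hB0
  have hsF : algebraMap R F s ≠ 0 := ne_map hs0
  have hsF' : algebraMap R F s' ≠ 0 := ne_map hs0'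
  have hgF : algebraMap R F g ≠ 0 := ne_map hg
  have hssq : ∀ q ∈ S.T y, s * s' ∉ q := fun q hq h =>
    ((S.pr y q hq).mem_or_mem h).elim (hs q hq) (hs' q hq)
  have hss0 : s * s' ≠ 0 := mul_ne_zero hs0 hs0'
  -- the unit
  let v : R := s * s' + S.p ^ (S.n + 1) * (a * x1)
  have hvq : ∀ q ∈ S.T y, v ∉ q := by
    intro q hq h
    have h2 : S.p ^ (S.n + 1) * (a * x1) ∈ q :=
      q.mul_mem_right _ (q.pow_mem_of_mem (S.mem y q hq) _ (Nat.succ_pos _))
    exact hssq q hq ((Ideal.add_mem_iff_left q h2).1 h)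
  have hv0 : v ≠ 0 := by
    obtain ⟨q, hq⟩ := S.ne y
    intro h
    exact hvq q hq (h ▸ q.zero_mem)
  have hvF : algebraMap R F v ≠ 0 := ne_map hv0
  have hvdef : algebraMap R F v = algebraMap R F s * algebraMap R F s' +
      algebraMap R F S.p ^ (S.n + 1) * (algebraMap R F a * algebraMap R F x1) := by
    simp only [v, map_add, map_mul, map_pow]
  have hxF : algebraMap R F x1 * algebraMap R F B +
      algebraMap R F x2 * algebraMap R F S.p ^ N =
      algebraMap R F s * (algebraMap R F s' * t) := by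
    rw [hst, ← map_mul, ← map_mul, ← map_pow, ← map_mul, ← map_add, hx]
  have hV : 1 + algebraMap R F S.p ^ (S.n + 1) *
      (algebraMap R F (a * x1) / algebraMap R F (s * s')) =
      algebraMap R F v / algebraMap R F (s * s') := by
    rw [hvdef, map_mul, map_mul]
    field_simp
  have hkey : 1 + algebraMap R F S.p ^ (S.n + 1) *
      (algebraMap R F a * t / algebraMap R F B) =
      (1 + algebraMap R F S.p ^ (S.n + 1) *
        (algebraMap R F (a * x1) / algebraMap R F (s * s'))) *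
      (1 + algebraMap R F S.p ^ (S.n + 1 + N) *
        ((algebraMap R F (a * x2) / algebraMap R F v) / algebraMap R F B)) := by
    rw [hV]
    have ht : t = (algebraMap R F x1 * algebraMap R F B +
        algebraMap R F x2 * algebraMap R F S.p ^ N) /
        (algebraMap R F s * algebraMap R F s') := by
      rw [hxF]
      field_simp
    rw [ht, map_mul, map_mul, pow_add]
    field_simp
    rw [hvdef]
    ring
  rw [hkey] at hne ⊢
  have hne1 := left_ne_zero_of_mul hne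
  have hne2 := right_ne_zero_of_mul hne
  rw [σ.mul_left _ _ _ hne1 hne2 hgF]
  refine lift_add S σ y (lift_of_U S σ y (U_mem S σ _ (InL_div hss0 hssq) hgF hne1)) ?_
  exact hN (S.n + 1 + N) (by omega) _ (InL_div hv0 hvq) hne2

end main

/-- COP: the coprime case -/
theorem pf_COP (hRAD : T_RAD.{u}) (hFIN : T_FIN.{u}) (hCRT : T_CRT.{u}) (_hMV1 : T_MV1.{u})
    (hLE1 : T_LE1.{u}) (hLE2 : T_LE2.{u}) : T_COP.{u} := by
  classical
  intro R F M _ _ _ _ _ _ _ _ S σ q hq hroot y a b g hb0 hb hg0 hcop hpg hb'0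
  have hb' : ∀ e ∈ S.Sig, b + S.p ^ (S.n + 1) * a ∉ e := by
    intro e he h
    have h1 : S.p ^ (S.n + 1) * a ∈ e :=
      e.mul_mem_right _ (e.pow_mem_of_mem he.2.2 _ (Nat.succ_pos _))
    exact hb e he ((Ideal.add_mem_iff_left e h1).1 h)
  obtain ⟨hfin1, -, hfin2⟩ := hFIN R F
  obtain ⟨-, hfinb, hfinP⟩ := hfin2 S
  let Eb : Set S.Y := {y' | ∃ q ∈ S.T y', b ∈ q}
  have hEb : Eb.Finite := hfinb b hb0 hb
  let Eg : Set S.Y := {y' | ∃ P ∈ S.Hor, g ∈ P ∧ ∃ q ∈ S.T y', P ≤ q}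
  have hEg : Eg.Finite := by
    refine Set.Finite.subset (Set.Finite.biUnion (hfin1 g hg0)
      (t := fun P => {y' | P ∈ S.Hor ∧ ∃ q ∈ S.T y', P ≤ q}) (fun P _ => ?_)) ?_
    · by_cases hP : P ∈ S.Hor
      · exact (hfinP P hP).subset fun y h => h.2
      · exact Set.Finite.subset Set.finite_empty fun y h => (hP h.1).elim
    · rintro y' ⟨P, hP, hgP, hle⟩
      exact Set.mem_biUnion (show P ∈ {P : Ideal R | P.IsPrime ∧ P.height = 1 ∧ g ∈ P} from
        ⟨hP.1, hP.2.1, hgP⟩) ⟨hP, hle⟩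
  obtain ⟨k0, hk0⟩ := cop_loc hRAD hLE2 S σ y (b + S.p ^ (S.n + 1) * a) g hb'0 hb' hg0
    (fun P hP _ hbP hgP => (hcop P hP hgP).2 hbP)
  have hloc := fun y' => cop_loc hRAD hLE2 S σ y' b g hb0 hb hg0
    (fun P hP _ hbP hgP => (hcop P hP hgP).1 hbP)
  choose k hk using hloc
  have hKk : ∀ y' ∈ Eb, k y' ≤ k0 + ∑ y' ∈ hEb.toFinset, k y' := fun y' hy' =>
    (Finset.single_le_sum (f := k) (fun _ _ => Nat.zero_le _)
      (hEb.mem_toFinset.2 hy')).trans (Nat.le_add_left _ _)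
  obtain ⟨ρ, hρ0, ⟨β, ρ1, hβ0, hβ, hβρ⟩, hρJ⟩ := hCRT R F S ({y} ∪ Eb ∪ Eg)
    (((Set.finite_singleton y).union hEb).union hEg) (fun y' => if y' = y then 1 else 0) (by
      intro y' _
      refine ⟨1, if y' = y then 1 else 0, one_ne_zero, fun q hq h =>
        (S.pr y' q hq).ne_top ((Ideal.eq_top_iff_one q).2 h), ?_⟩
      split_ifs <;> simp) (k0 + ∑ y' ∈ hEb.toFinset, k y')
  have hβE : ∀ y' ∈ {y} ∪ Eb ∪ Eg, ∀ q ∈ S.T y', β ∉ q := fun y' hy' q hq =>
    hβ q (Or.inl ⟨y', hy', hq⟩)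
  have hβS : ∀ e ∈ S.Sig, β ∉ e := fun e he => hβ e (Or.inr he)
  have hbβ : ∀ e ∈ S.Sig, b * β ∉ e := fun e he h =>
    (he.1.mem_or_mem h).elim (hb e he) (hβS e he)
  have hbβ0 : b * β ≠ 0 := mul_ne_zero hb0 hβ0
  have hbF : algebraMap R F b ≠ 0 := ne_map hb0
  have hβF : algebraMap R F β ≠ 0 := ne_map hβ0
  have hgF : algebraMap R F g ≠ 0 := ne_map hg0
  have hb'F : algebraMap R F (b + S.p ^ (S.n + 1) * a) ≠ 0 := ne_map hb'0
  have hb'def : algebraMap R F (b + S.p ^ (S.n + 1) * a) =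
      algebraMap R F b + algebraMap R F S.p ^ (S.n + 1) * algebraMap R F a := by
    rw [map_add, map_mul, map_pow]
  -- the function
  have hF0eq : 1 + algebraMap R F S.p ^ (S.n + 1) * (algebraMap R F a * ρ / algebraMap R F b) =
      1 + algebraMap R F S.p ^ (S.n + 1) *
        (algebraMap R F (a * ρ1) / algebraMap R F (b * β)) := by
    rw [map_mul, map_mul, ← hβρ]
    field_simp
  have hF0 : 1 + algebraMap R F S.p ^ (S.n + 1) *
      (algebraMap R F a * ρ / algebraMap R F b) ≠ 0 := by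
    rw [hF0eq]
    intro h
    have h1 : b * β + S.p ^ (S.n + 1) * (a * ρ1) = 0 := by
      apply IsFractionRing.injective R F
      rw [map_zero, map_add, map_mul (algebraMap R F) (S.p ^ (S.n + 1)), map_pow]
      have h2 := ne_map (F := F) hbβ0
      have h3 : algebraMap R F (b * β) + algebraMap R F S.p ^ (S.n + 1) *
          algebraMap R F (a * ρ1) = algebraMap R F (b * β) *
          (1 + algebraMap R F S.p ^ (S.n + 1) *
            (algebraMap R F (a * ρ1) / algebraMap R F (b * β))) := by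
        field_simp
      rw [h3, h, mul_zero]
    obtain ⟨e, he⟩ := sig_nonempty S y
    apply hbβ e he
    have h2 : b * β = -(S.p ^ (S.n + 1) * (a * ρ1)) := eq_neg_of_add_eq_zero_left h1
    rw [h2]
    exact e.neg_mem (e.mul_mem_right _ (e.pow_mem_of_mem he.2.2 _ (Nat.succ_pos _)))
  have hfac : 1 + algebraMap R F S.p ^ (S.n + 1) * (algebraMap R F a * ρ / algebraMap R F b) =
      (1 + algebraMap R F S.p ^ (S.n + 1) * (algebraMap R F a / algebraMap R F b)) *
      (1 + algebraMap R F S.p ^ (S.n + 1) * (algebraMap R F a * (ρ - 1) /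
        algebraMap R F (b + S.p ^ (S.n + 1) * a))) := by
    have h1 : 1 + algebraMap R F S.p ^ (S.n + 1) * (algebraMap R F a / algebraMap R F b) =
        algebraMap R F (b + S.p ^ (S.n + 1) * a) / algebraMap R F b := by
      rw [hb'def]
      field_simp
    rw [h1]
    field_simp
    rw [hb'def]
    ring
  have hne := hF0
  rw [hfac] at hne
  have hu := left_ne_zero_of_mul hne
  have hW := right_ne_zero_of_mul hne
  have hsplit : σ.s (1 + algebraMap R F S.p ^ (S.n + 1) *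
      (algebraMap R F a / algebraMap R F b)) (algebraMap R F g) =
      σ.s (1 + algebraMap R F S.p ^ (S.n + 1) *
        (algebraMap R F a * ρ / algebraMap R F b)) (algebraMap R F g) +
      -σ.s (1 + algebraMap R F S.p ^ (S.n + 1) * (algebraMap R F a * (ρ - 1) /
        algebraMap R F (b + S.p ^ (S.n + 1) * a))) (algebraMap R F g) := by
    rw [hfac, σ.mul_left _ _ _ hu hW hgF]
    abel
  rw [hsplit]
  refine lift_add S σ y ?_ (lift_neg S σ y (hk0 a (ρ - 1) ?_ hW))
  swap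
  · have h1 := hρJ y (Or.inl (Or.inl rfl))
    rw [if_pos rfl] at h1
    exact InJ_mono (Nat.le_add_right _ _) h1
  have hfinE : {y' | y' ≠ y ∧ ∃ q ∈ S.T y', b * β ∈ q}.Finite :=
    (hfinb (b * β) hbβ0 hbβ).subset fun y' h => h.2
  refine lift_glue S σ y _ ?_ hfinE.toFinset ?_ ?_ ?_
  · rw [hF0eq]
    exact U_mem S σ _ (InL_div hbβ0 hbβ) hgF (by rw [← hF0eq]; exact hF0)
  · intro y' hy' hE
    rw [hF0eq]
    refine U_mem S σ _ (InL_div hbβ0 fun q hq h => hE ?_) hgF (by rw [← hF0eq]; exact hF0)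
    exact hfinE.mem_toFinset.2 ⟨hy', q, hq, h⟩
  · intro h
    exact (hfinE.mem_toFinset.1 h).1 rfl
  · intro y' hy'
    obtain ⟨hne', -⟩ := hfinE.mem_toFinset.1 hy'
    by_cases h1 : y' ∈ Eb
    · refine hk y' a ρ ?_ hF0
      have h2 := hρJ y' (Or.inl (Or.inr h1))
      rw [if_neg hne', sub_zero] at h2
      exact InJ_mono (hKk y' h1) h2
    by_cases h2 : y' ∈ Eg
    · apply lift_of_U
      rw [hF0eq]
      refine U_mem S σ _ (InL_div hbβ0 fun q hq h => ?_) hgF (by rw [← hF0eq]; exact hF0)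
      rcases (S.pr y' q hq).mem_or_mem h with h3 | h3
      · exact h1 ⟨q, hq, h3⟩
      · exact hβE y' (Or.inr h2) q hq h3
    · rw [hF0eq]
      refine hLE1 R F M S σ q hq hroot y' (a * ρ1) (b * β) g hbβ0 hbβ hg0 ?_ hpg
        (by rw [← hF0eq]; exact hF0)
      rintro P hP ⟨q', hq', hle⟩ hgP
      exact h2 ⟨P, hP, hgP, q', hq', hle⟩

end Pool.Agent.H74.KST
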